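import Pool.Agent.D0H54.Gk.Fin2

/-!
# Carlitz cyclotomic numbers and orbits of Bernoulli-Carlitz numbers

`k` is a finite field with `q` elements of characteristic `p`, `w` a monic polynomial of `k[T]`
with residue field `κ = k[T]/(w)` (so `w` is a prime), `F = K(Λ)` with `Λ ≠ 0` killed by `w` under
the Carlitz action, i.e. `F` is the `w`-th Carlitz cyclotomic field. For `a ∈ κˣ` the unit `u a` of
`F` is the torsion point `C_a(Λ)`. The element `∑_a a^{-l} ⊗ C_a(Λ)` of `κ ⊗ Fˣ` spans the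
component of the cyclotomic numbers (modulo `p`-th powers, over `κ`) on which the Galois group
`(A/w)ˣ` acts by the `l`-th power of its natural character. It vanishes exactly when `w` divides all
the Bernoulli-Carlitz numbers in the orbit of `l`.
-/

namespace Pool.Agent.Results.MP_a90b0f_nt.CyclotomicKummer

open Polynomial TensorProduct Pool.Agent.D0H54.Gk

theorem result {k κ : Type*} [Field k] [Fintype k] [Field κ] [Fintype κ] [Fintype κˣ]
    (p : ℕ) [Fact p.Prime] [CharP k p]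
    (w : k[X]) (hw : w.Monic) (pr : k[X] →+* κ) (hpr : Function.Surjective pr)
    (hker : RingHom.ker pr = Ideal.span {w})
    {F : Type*} [Field F] [Algebra (RatFunc k) F] (Λ : F) (hΛ : Λ ≠ 0)
    (htor : cAct k w Λ = 0) (hgen : IntermediateField.adjoin (RatFunc k) {Λ} = ⊤)
    (rep : κ → k[X]) (hrep : ∀ a, pr (rep a) = a)
    (u : κˣ → Fˣ) (hu : ∀ a : κˣ, (u a : F) = cAct k (rep a) Λ)
    (l : ℕ) (hl0 : 0 < l) (hl : l < Fintype.card κ - 1) :
    List.TFAE [
      ∑ a : κˣ, ((a : κ)⁻¹ ^ l) ⊗ₜ[ℤ] Additive.ofMul (u a) = (0 : κ ⊗[ℤ] Additive Fˣ),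
      ∀ l' : ℕ, 0 < l' → l' < Fintype.card κ - 1 →
        (∃ m : ℕ, l' ≡ Fintype.card k ^ m * l [MOD Fintype.card κ - 1]) → DivBy w (bC k l'),
      ∀ l' : ℕ, 0 < l' → l' < Fintype.card κ - 1 →
        (∃ m : ℕ, l' ≡ p ^ m * l [MOD Fintype.card κ - 1]) → DivBy w (bC k l')] :=
  comp_zero_tfae p w hw pr hpr hker Λ hΛ htor hgen rep hrep u hu l hl0 hl

end Pool.Agent.Results.MP_a90b0f_nt.CyclotomicKummer
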