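import Pool.Agent.D0H54.GE.Final

/-!
# Gekeler's conjecture: the converse to the theorem of Okada and Goss

`k` is a finite field with `q` elements of characteristic `p`, `w` a monic polynomial of `A = k[T]`
with residue field `κ = A/(w)` (so `w` is a prime), `F = K(Λ)` with `K = k(T)`, `Λ ≠ 0` and
`C_w(Λ) = 0`, i.e. `F` is the `w`-th Carlitz cyclotomic field. `W = W(κ)` is the ring of Witt vectors
and `C` the `p`-primary part of the class group of the integral closure `O` of `A` in `F`.

If `0 < l < |κ| - 1`, `q - 1` divides `l` and `w` divides the Bernoulli-Carlitz numbers `B_{l'}` for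
all `l'` in the orbit of `l` under multiplication by `p` modulo `|κ| - 1`, then the component
of `W ⊗ C` on which `(A/w)ˣ = Gal(F/K)` acts by the `l`-th power of the Teichmuller character is not
zero.
-/

namespace Pool.Agent.Results.MP_a90b0f_nt.GekelerConjecture

open Polynomial Pool.Agent.D0H54.Gk Pool.Agent.D0H54.GE

theorem result {k κ : Type*} [Field k] [Fintype k] [Field κ] [Fintype κ]
    (p : ℕ) [Fact p.Prime] [CharP k p]
    (w : k[X]) (hw : w.Monic) (pr : k[X] →+* κ) (hpr : Function.Surjective pr)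
    (hker : RingHom.ker pr = Ideal.span {w})
    {F : Type*} [Field F] [Algebra (RatFunc k) F] [FiniteDimensional (RatFunc k) F] [Algebra k[X] F]
    [IsScalarTower k[X] (RatFunc k) F]
    {O : Type*} [CommRing O] [IsDomain O] [Algebra k[X] O] [Algebra O F] [IsScalarTower k[X] O F]
    [IsIntegralClosure O k[X] F]
    (Λ : F) (hΛ : Λ ≠ 0) (htor : cAct k w Λ = 0)
    (hgen : IntermediateField.adjoin (RatFunc k) {Λ} = ⊤)
    (l : ℕ) (hl0 : 0 < l) (hl : l < Fintype.card κ - 1) (heven : Fintype.card k - 1 ∣ l)
    (hB : ∀ l' : ℕ, 0 < l' → l' < Fintype.card κ - 1 →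
      (∃ m : ℕ, l' ≡ p ^ m * l [MOD Fintype.card κ - 1]) → DivBy w (bC k l')) :
    component p pr O Λ l ≠ ⊥ :=
  main_p p w hw pr hpr hker Λ hΛ htor hgen l hl0 hl heven hB

end Pool.Agent.Results.MP_a90b0f_nt.GekelerConjecture
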